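import Pool.Agent.H52.KP.Targets

set_option autoImplicit false

/-!
# CONT. Joint continuity of the smoothed wall measures
-/

open MeasureTheory Metric Set Topology Filter
open scoped RealInnerProductSpace

namespace Pool.Agent.H91.KPO

open Pool.Agent.H52.KP Pool.Agent.H65k

private lemma ct_deriv (k : ℕ) {t : ℝ} (ht : 1 < t) : deriv (phk k) t = 0 := by
  have h1 : phk k =ᶠ[𝓝 t] fun _ => (0 : ℝ) := by
    filter_upwards [isOpen_Ioi.mem_nhds ht] with x hx
    exact phk_zero' k x (le_of_lt hx)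
  rw [h1.deriv_eq]
  simp

theorem cont : T_CONT := by
  intro n N M hM ρ k i j
  -- the integrand
  let F : (ℝ × (Fin n → Eu N)) × Eu N → ℝ := fun w =>
    -(deriv (deriv M) (∑ l, phk k (pw ρ l (w.1.2, w.2) - w.1.1))) *
      (deriv (phk k) (pw ρ i (w.1.2, w.2) - w.1.1) *
        deriv (phk k) (pw ρ j (w.1.2, w.2) - w.1.1))
  have hphk : Continuous (phk k) := (phk_contDiff k).continuous
  have hdphk : Continuous (deriv (phk k)) := (phk_contDiff k).continuous_deriv (by norm_num)
  have hddM : Continuous (deriv (deriv M)) := by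
    have h1 : ContDiff ℝ 1 (deriv M) := by
      have h2 : ContDiff ℝ (1 + 1) M := by
        have h3 := hM.1
        have e : (2 : WithTop ℕ∞) = 1 + 1 := by norm_num
        rw [e] at h3
        exact h3
      exact (contDiff_succ_iff_deriv.1 h2).2.2
    exact h1.continuous_deriv (le_refl _)
  have hpw : ∀ l, Continuous fun w : (ℝ × (Fin n → Eu N)) × Eu N =>
      pw ρ l (w.1.2, w.2) - w.1.1 := by
    intro l
    unfold pw
    fun_prop
  have hF : Continuous F := by
    have h1 : Continuous fun w : (ℝ × (Fin n → Eu N)) × Eu N =>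
        ∑ l, phk k (pw ρ l (w.1.2, w.2) - w.1.1) :=
      continuous_finset_sum _ fun l _ => hphk.comp (hpw l)
    exact ((hddM.comp h1).neg).mul ((hdphk.comp (hpw i)).mul (hdphk.comp (hpw j)))
  rw [continuous_iff_continuousAt]
  intro z₀
  obtain ⟨σ₀, c₀⟩ := z₀
  set T : ℝ := 3 + |σ₀| + ρ i ^ 2 with hT
  have hT1 : 1 ≤ T := by
    have h1 := abs_nonneg σ₀
    have h2 := sq_nonneg (ρ i)
    linarith
  set R : ℝ := ‖c₀ i‖ + 1 + T with hR
  have hsupp : ∀ z ∈ closedBall ((σ₀, c₀) : ℝ × (Fin n → Eu N)) 1, ∀ y : Eu N, R < ‖y‖ →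
      F (z, y) = 0 := by
    intro z hz y hy
    have h1 : dist z (σ₀, c₀) ≤ 1 := hz
    rw [Prod.dist_eq] at h1
    have h2 : dist z.1 σ₀ ≤ 1 := (le_max_left _ _).trans h1
    have h3 : dist (z.2 i) (c₀ i) ≤ 1 := (dist_le_pi_dist z.2 c₀ i).trans ((le_max_right _ _).trans h1)
    have h4 : z.1 ≤ |σ₀| + 1 := by
      rw [Real.dist_eq] at h2
      have h5 := (abs_le.1 h2).2
      have h6 := le_abs_self σ₀
      linarith
    have h5 : ‖z.2 i‖ ≤ ‖c₀ i‖ + 1 := by
      have h6 : ‖z.2 i‖ ≤ ‖z.2 i - c₀ i‖ + ‖c₀ i‖ := by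
        have := norm_add_le (z.2 i - c₀ i) (c₀ i)
        simpa using this
      rw [dist_eq_norm] at h3
      linarith
    have h6 : T < ‖y - z.2 i‖ := by
      have h7 : ‖y‖ ≤ ‖y - z.2 i‖ + ‖z.2 i‖ := by
        have := norm_add_le (y - z.2 i) (z.2 i)
        simpa using this
      linarith
    have h7 : 1 < pw ρ i (z.2, y) - z.1 := by
      show 1 < ‖y - z.2 i‖ ^ 2 - ρ i ^ 2 - z.1
      have h8 : T ≤ ‖y - z.2 i‖ ^ 2 := by nlinarith
      linarith
    show -(deriv (deriv M) (∑ l, phk k (pw ρ l (z.2, y) - z.1))) *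
      (deriv (phk k) (pw ρ i (z.2, y) - z.1) *
        deriv (phk k) (pw ρ j (z.2, y) - z.1)) = 0
    rw [ct_deriv k h7]
    ring
  obtain ⟨C, hC⟩ := ((isCompact_closedBall ((σ₀, c₀) : ℝ × (Fin n → Eu N)) 1).prod
    (isCompact_closedBall (0 : Eu N) R)).exists_bound_of_continuousOn (f := F) hF.continuousOn
  have hbint : Integrable ((closedBall (0 : Eu N) R).indicator (fun _ => |C|)) volume := by
    rw [integrable_indicator_iff isClosed_closedBall.measurableSet]
    exact integrableOn_const (isCompact_closedBall (0 : Eu N) R).measure_lt_top.ne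
  have hmem : closedBall ((σ₀, c₀) : ℝ × (Fin n → Eu N)) 1 ∈ 𝓝 ((σ₀, c₀) : ℝ × (Fin n → Eu N)) :=
    closedBall_mem_nhds _ one_pos
  refine continuousAt_of_dominated (F := fun z y => F (z, y))
    (bound := (closedBall (0 : Eu N) R).indicator (fun _ => |C|)) ?_ ?_ hbint ?_
  · exact Filter.Eventually.of_forall fun z =>
      (hF.comp (by fun_prop : Continuous fun y : Eu N => (z, y))).aestronglyMeasurable
  · filter_upwards [hmem] with z hz
    refine Filter.Eventually.of_forall fun y => ?_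
    by_cases hy : R < ‖y‖
    · rw [hsupp z hz y hy, norm_zero]
      exact indicator_nonneg (fun _ _ => abs_nonneg C) y
    · have hy' : y ∈ closedBall (0 : Eu N) R := by simpa using not_lt.1 hy
      rw [indicator_of_mem hy']
      exact (hC (z, y) ⟨hz, hy'⟩).trans (le_abs_self C)
  · exact Filter.Eventually.of_forall fun y =>
      (hF.comp (by fun_prop : Continuous fun z : ℝ × (Fin n → Eu N) => (z, y))).continuousAt

end Pool.Agent.H91.KPO
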