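import Pool.Agent.H52.KP.Targets

set_option autoImplicit false

/-!
# FRAME. Coordinates adapted to a pair of centres
-/

open MeasureTheory Metric Set Topology Filter
open scoped RealInnerProductSpace

namespace Pool.Agent.H91.KPO

open Pool.Agent.H52.KP Pool.Agent.H65k

variable {K : ℕ}

/-- the coordinates -/
private noncomputable def psi (b : OrthonormalBasis (Fin K ⊕ Fin 2) ℝ (Eu (K + 2)))
    (a : Eu (K + 2)) : Eu (K + 2) ≃ᵐ Eu K × (ℝ × ℝ) :=
  ((MeasurableEquiv.addLeft (-a)).trans b.measurableEquiv).trans <|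
    (MeasurableEquiv.toLp 2 (Fin K ⊕ Fin 2 → ℝ)).symm.trans <|
    (MeasurableEquiv.sumPiEquivProdPi (fun _ : Fin K ⊕ Fin 2 => ℝ)).trans <|
    MeasurableEquiv.prodCongr (MeasurableEquiv.toLp 2 (Fin K → ℝ)) MeasurableEquiv.finTwoArrow

private lemma psi_apply (b : OrthonormalBasis (Fin K ⊕ Fin 2) ℝ (Eu (K + 2)))
    (a y : Eu (K + 2)) : psi b a y = (WithLp.toLp 2 (fun l => b.repr (-a + y) (Sum.inl l)),
      (b.repr (-a + y) (Sum.inr 0), b.repr (-a + y) (Sum.inr 1))) := rfl

private lemma psi_mp (b : OrthonormalBasis (Fin K ⊕ Fin 2) ℝ (Eu (K + 2)))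
    (a : Eu (K + 2)) : MeasurePreserving (psi b a) volume volume := by
  unfold psi
  refine MeasurePreserving.trans (MeasurePreserving.trans
    (measurePreserving_add_left volume (-a)) b.measurePreserving_measurableEquiv) ?_
  refine (EuclideanSpace.volume_preserving_symm_measurableEquiv_toLp _).trans ?_
  refine (volume_measurePreserving_sumPiEquivProdPi _).trans ?_
  refine MeasurePreserving.prod ?_ ?_
  · exact (EuclideanSpace.volume_preserving_symm_measurableEquiv_toLp _).symm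
  · exact volume_preserving_finTwoArrow ℝ

private lemma norm_sum_sq (w : EuclideanSpace ℝ (Fin K ⊕ Fin 2)) :
    ‖w‖ ^ 2 = ‖(WithLp.toLp 2 (fun l => w (Sum.inl l)) : Eu K)‖ ^ 2 + w (Sum.inr 0) ^ 2 +
      w (Sum.inr 1) ^ 2 := by
  rw [EuclideanSpace.real_norm_sq_eq, EuclideanSpace.real_norm_sq_eq, Fintype.sum_sum_type,
    Fin.sum_univ_two]
  ring

private lemma inner_sum (w r : EuclideanSpace ℝ (Fin K ⊕ Fin 2)) :
    ⟪w, r⟫ = ⟪(WithLp.toLp 2 (fun l => w (Sum.inl l)) : Eu K),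
      (WithLp.toLp 2 (fun l => r (Sum.inl l)) : Eu K)⟫ + w (Sum.inr 0) * r (Sum.inr 0) +
      w (Sum.inr 1) * r (Sum.inr 1) := by
  rw [PiLp.inner_apply, PiLp.inner_apply, Fintype.sum_sum_type, Fin.sum_univ_two]
  simp only [RCLike.inner_apply, conj_trivial]
  ring

theorem frame : T_FRAME := by
  intro n K ρ c hc i j hij
  obtain ⟨a, u, P, hu, horth, hP⟩ := hc
  have hne : ‖c i - c j‖ ≠ 0 := norm_ne_zero_iff.2 (sub_ne_zero.2 hij)
  set ν : Eu (K + 2) := ‖c i - c j‖⁻¹ • (c i - c j) with hν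
  have hν1 : ‖ν‖ = 1 := by
    rw [hν, norm_smul, norm_inv, norm_norm, inv_mul_cancel₀ hne]
  have hνu : ⟪ν, u⟫ = 0 := by
    rw [hν, real_inner_smul_left]
    have h1 : c i - c j = (c i - a) - (c j - a) := by abel
    rw [h1, inner_sub_left, horth i, horth j, sub_zero, mul_zero]
  have huν : ⟪u, ν⟫ = 0 := by rw [real_inner_comm]; exact hνu
  -- the orthonormal basis
  obtain ⟨b, hb⟩ : ∃ b : OrthonormalBasis (Fin K ⊕ Fin 2) ℝ (Eu (K + 2)),
      b (Sum.inr 0) = ν ∧ b (Sum.inr 1) = u := by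
    let v : Fin K ⊕ Fin 2 → Eu (K + 2) := Sum.elim (fun _ => 0) ![ν, u]
    have hv : Orthonormal ℝ ((Set.range (Sum.inr : Fin 2 → Fin K ⊕ Fin 2)).domRestrict v) := by
      constructor
      · rintro ⟨_, l, rfl⟩
        show ‖v (Sum.inr l)‖ = 1
        fin_cases l
        · exact hν1
        · exact hu
      · rintro ⟨_, l, rfl⟩ ⟨_, l', rfl⟩ hne'
        show ⟪v (Sum.inr l), v (Sum.inr l')⟫ = 0
        fin_cases l <;> fin_cases l'
        · exact absurd rfl hne'
        · exact hνu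
        · exact huν
        · exact absurd rfl hne'
    obtain ⟨b, hb⟩ := hv.exists_orthonormalBasis_extension_of_card_eq (by simp)
    exact ⟨b, hb _ ⟨0, rfl⟩, hb _ ⟨1, rfl⟩⟩
  obtain ⟨hb0, hb1⟩ := hb
  -- coordinates of the centres
  let r : Fin n → EuclideanSpace ℝ (Fin K ⊕ Fin 2) := fun l => b.repr (c l - a)
  have hr1 : ∀ l, r l (Sum.inr 1) = 0 := by
    intro l
    show b.repr (c l - a) (Sum.inr 1) = 0
    rw [OrthonormalBasis.repr_apply_apply, hb1, real_inner_comm]
    exact horth l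
  have hrn : ∀ l, ‖r l‖ ^ 2 - ρ l ^ 2 = P := by
    intro l
    show ‖b.repr (c l - a)‖ ^ 2 - ρ l ^ 2 = P
    rw [LinearIsometryEquiv.norm_map]
    exact hP l
  have hdiff : ∀ q, r i q - r j q = if q = Sum.inr 0 then ‖c i - c j‖ else 0 := by
    intro q
    have h1 : r i - r j = ‖c i - c j‖ • b.repr ν := by
      show b.repr (c i - a) - b.repr (c j - a) = _
      rw [← map_sub, ← map_smul, hν, smul_smul, mul_inv_cancel₀ hne, one_smul]
      congr 1
      abel
    have h2 : r i q - r j q = (r i - r j) q := rfl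
    rw [h2, h1, ← hb0, OrthonormalBasis.repr_self]
    simp
  refine ⟨fun l => WithLp.toLp 2 (fun q => r l (Sum.inl q)), fun l => r l (Sum.inr 0), P,
    ?_, ?_, ?_, ?_⟩
  · have h1 : (fun q : Fin K => r i (Sum.inl q)) = fun q => r j (Sum.inl q) := by
      ext q
      have h2 := hdiff (Sum.inl q)
      rw [if_neg (by simp)] at h2
      linarith
    show (WithLp.toLp 2 (fun q => r i (Sum.inl q)) : Eu K) = WithLp.toLp 2 (fun q => r j (Sum.inl q))
    rw [h1]
  · have h2 := hdiff (Sum.inr 0)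
    rw [if_pos rfl] at h2
    exact h2
  · have h1 := hrn i
    have h2 := norm_sum_sq (r i)
    rw [hr1 i] at h2
    show ‖(WithLp.toLp 2 (fun q => r i (Sum.inl q)) : Eu K)‖ ^ 2 + r i (Sum.inr 0) ^ 2 - P = ρ i ^ 2
    linarith
  · intro k M σ
    unfold rk rq
    rw [← (psi_mp b a).integral_comp']
    have key : ∀ (l : Fin n) (y : Eu (K + 2)),
        gq (fun l => (WithLp.toLp 2 (fun q => r l (Sum.inl q)) : Eu K))
          (fun l => r l (Sum.inr 0)) P l (psi b a y).1 (psi b a y).2.1 (psi b a y).2.2 =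
        pw ρ l (c, y) := by
      intro l y
      rw [psi_apply]
      set w : EuclideanSpace ℝ (Fin K ⊕ Fin 2) := b.repr (-a + y) with hw
      have h1 : pw ρ l (c, y) = ‖w - r l‖ ^ 2 - ρ l ^ 2 := by
        show ‖y - c l‖ ^ 2 - ρ l ^ 2 = _
        have h2 : w - r l = b.repr (y - c l) := by
          show b.repr (-a + y) - b.repr (c l - a) = _
          rw [← map_sub]
          congr 1
          abel
        rw [h2, LinearIsometryEquiv.norm_map]
      rw [h1, norm_sub_sq_real, norm_sum_sq w, inner_sum w (r l), hr1 l]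
      have h3 := hrn l
      unfold gq
      show ‖(WithLp.toLp 2 (fun q => w (Sum.inl q)) : Eu K)‖ ^ 2 + w (Sum.inr 0) ^ 2 +
        w (Sum.inr 1) ^ 2 - 2 * ⟪(WithLp.toLp 2 (fun q => w (Sum.inl q)) : Eu K),
          (WithLp.toLp 2 (fun q => r l (Sum.inl q)) : Eu K)⟫ - 2 * w (Sum.inr 0) * r l (Sum.inr 0)
        + P = _
      linarith
    congr 1
    ext y
    simp only [key]

end Pool.Agent.H91.KPO
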